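import Pool.Agent.Helper12.D4.Jb
import Pool.Agent.Helper37.SD.Wt

/-!
# Project D4: regular 1-forms at a prime divisor
-/

set_option autoImplicit false

namespace Pool.Agent.Helper96.D4

open Pool.Agent.Helper88.D4 Pool.Agent.Helper12.D4 Pool.Agent.Helper37.SD Pool.Agent.Helper20.TS

variable {K : Type} [Field K] [Algebra ℂ K]

/-- A property of the first argument of a derivation-valued derivation passes from `R` to the
valuation ring. -/
theorem ext_loc {R : Subalgebra ℂ K} {u : RVal K} (hu : PDiv R u) (α : Helper88.D4.One K)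
    (F : K → Derivation ℂ K K) (hF : ∀ x y, F (x * y) = x • F y + y • F x) (hF0 : F 0 = 0)
    (hR : ∀ r ∈ R, u.Ge 0 (α (F r))) (x : K) (hx : u.Ge 0 x) : u.Ge 0 (α (F x)) := by
  by_cases hx0 : x = 0
  · rw [hx0, hF0, map_zero]
    exact Or.inl rfl
  · have hxv : 0 ≤ u.val x := by
      rcases hx with hx | hx
      · exact absurd hx hx0
      · exact hx
    obtain ⟨s, hs, hs0, hsv, hsx⟩ := hu.loc x hx0 hxv
    have h1 : F x = s⁻¹ • (F (s * x) - x • F s) := by
      rw [hF s x, add_sub_cancel_right, smul_smul, inv_mul_cancel₀ hs0, one_smul]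
    rw [h1, map_smul, map_sub, map_smul, smul_eq_mul, smul_eq_mul]
    have h2 : u.Ge 0 s⁻¹ := Or.inr (by rw [u.val_inv hs0, hsv, neg_zero])
    have h3 : u.Ge 0 (x * α (F s)) := by
      have := u.ge_mul hx (hR s hs)
      rwa [add_zero] at this
    have := u.ge_mul h2 (u.ge_sub (hR _ hsx) h3)
    rwa [add_zero] at this

theorem ge_of_mem {R : Subalgebra ℂ K} {u : RVal K} (hu : PDiv R u) {x : K} (hx : x ∈ R) :
    u.Ge 0 x := by
  by_cases h : x = 0
  · exact Or.inl h
  · exact Or.inr (hu.nonneg x hx h)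

/-- A regular 1-form is regular at prime divisors. -/
theorem reg_at {R : Subalgebra ℂ K} {ξ : Derivation ℂ K K} {J : Bra K} {a : ℝ}
    (h : Cone4 R ξ J a) {α : Helper88.D4.One K} {u : RVal K} (hu : PDiv R u)
    (hR : ∀ x ∈ R, ∀ y ∈ R, ∀ z ∈ R, u.Ge 0 (α (J x y z))) (x y z : K) (hx : u.Ge 0 x)
    (hy : u.Ge 0 y) (hz : u.Ge 0 z) : u.Ge 0 (α (J x y z)) := by
  refine ext_loc hu α (fun x => J x y z) (fun x x' => mul1 h.alt x x' y z) (zero1 h.alt y z) ?_ x hx
  intro r hr
  refine ext_loc hu α (fun y => J r y z) (fun y y' => mul2 h.alt r y y' z) (zero2 h.alt r z) ?_ y hy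
  intro s hs
  exact ext_loc hu α (fun z => J r s z) (fun z z' => mul3 h.alt r s z z') (zero3 h.alt r s)
    (fun t ht => hR r hr s hs t ht) z hz

/-- S_REG -/
theorem s_REG (hai : S_AI) (hun : S_UN) (hex : S_EX1) : S_REG := by
  intro K _ _ R ξ J a h α
  refine ⟨fun hα u hu x y z hx hy hz => ?_, fun hα D hD => ?_⟩
  · refine reg_at h hu (fun x hx y hy z hz => ge_of_mem hu (hα _ ?_)) x y z hx hy hz
    exact fun w hw => h.reg w hw x hx y hy z hz
  · by_contra hc
    obtain ⟨u, hu, huv⟩ := hex K R h.frac h.fg h.normal _ hc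
    obtain ⟨p, hp, hp0, hpv⟩ := hu.unif
    obtain ⟨x, hx, y, hy, z, hz, hJ0, hJv⟩ := hun K R ξ J a h u hu p hp0 hpv
    have hb : brk J ![p, x, y, z] = J x y z p := by simp [brk]
    have hinv : u.Ge 0 (J x y z p)⁻¹ := Or.inr (by rw [u.val_inv hJ0, hJv, neg_zero])
    have hfr : ∀ i, u.Ge 0 (α (dfr J ![p, x, y, z] i)) := by
      intro i
      unfold dfr
      rw [hb]
      have key : ∀ r ∈ R, ∀ s ∈ R, ∀ t ∈ R, u.Ge 0 (α ((J x y z p)⁻¹ • J r s t)) := by
        intro r hr s hs t ht
        rw [map_smul, smul_eq_mul]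
        have := u.ge_mul hinv (hα u hu r hr s hs t ht)
        rwa [add_zero] at this
      have key' : ∀ r ∈ R, ∀ s ∈ R, ∀ t ∈ R, u.Ge 0 (α (-(J x y z p)⁻¹ • J r s t)) := by
        intro r hr s hs t ht
        rw [neg_smul, map_neg]
        exact u.ge_neg (key r hr s hs t ht)
      fin_cases i
      · exact key x hx y hy z hz
      · exact key' p hp y hy z hz
      · exact key p hp x hx z hz
      · exact key' p hp x hx y hy
    have hD' := ((hai K J h.trdeg h.alt).2.1 ![p, x, y, z] (by rw [hb]; exact hJ0)).2 D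
    have hge : u.Ge 0 (α D) := by
      rw [hD', map_sum]
      refine u.ge_sum _ _ fun i _ => ?_
      rw [map_smul, smul_eq_mul]
      have h1 : u.Ge 0 (D (![p, x, y, z] i)) := by
        refine ge_of_mem hu (hD _ ?_)
        fin_cases i
        · exact hp
        · exact hx
        · exact hy
        · exact hz
      have := u.ge_mul h1 (hfr i)
      rwa [add_zero] at this
    rcases hge with hge | hge
    · exact hc (by rw [hge]; exact R.zero_mem)
    · linarith

end Pool.Agent.Helper96.D4
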