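import Pool.Agent.Helper88.D4.Stmts6

/-! (J3) A family of the same degree is independent of the jets (MP_e1889a_ag). -/

set_option autoImplicit false

namespace Pool.Agent.Helper96.D4

open Pool.Agent.Helper88.D4 Pool.Agent.Helper37.SD Pool.Agent.Helper20.TS

/-- the argument of the minimal support -/
theorem min_supp {K : Type} [Field K] [Algebra ℂ K] {n : ℕ} (P : (Fin n → K) → Prop)
    {ι : Type} (δ : ι → Derivation ℂ K K)
    (hs : ∀ A, P A → ∀ l₀, A l₀ ≠ 0 → P (fun l => (A l₀)⁻¹ * A l))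
    (hd : ∀ A, P A → ∀ j, P (fun l => δ j (A l))) (hex : ∃ A, P A ∧ A ≠ 0) :
    ∃ A, P A ∧ (∀ j l, δ j (A l) = 0) ∧ ∃ l₀, A l₀ = 1 := by
  classical
  let Q : ℕ → Prop := fun k => ∃ A, P A ∧ A ≠ 0 ∧ (Finset.univ.filter fun l => A l ≠ 0).card = k
  have hQ : ∃ k, Q k := by
    obtain ⟨A, h1, h2⟩ := hex
    exact ⟨_, A, h1, h2, rfl⟩
  obtain ⟨A, hA, hA0, hAk⟩ := Nat.find_spec hQ
  obtain ⟨l₀, hl₀⟩ := Function.ne_iff.1 hA0
  have hl₀' : A l₀ ≠ 0 := hl₀
  refine ⟨fun l => (A l₀)⁻¹ * A l, hs A hA l₀ hl₀', ?_, l₀, inv_mul_cancel₀ hl₀'⟩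
  intro j
  by_contra hcon
  push Not at hcon
  obtain ⟨l, hl⟩ := hcon
  have hP := hd _ (hs A hA l₀ hl₀') j
  have hlt : (Finset.univ.filter fun l => δ j ((A l₀)⁻¹ * A l) ≠ 0).card < Nat.find hQ := by
    rw [← hAk]
    apply Finset.card_lt_card
    rw [Finset.ssubset_iff_of_subset]
    · refine ⟨l₀, by simpa using hl₀', ?_⟩
      simp only [Finset.mem_filter, Finset.mem_univ, true_and, not_not]
      rw [inv_mul_cancel₀ hl₀']
      exact (δ j).map_one_eq_zero
    · intro i hi
      simp only [Finset.mem_filter, Finset.mem_univ, true_and] at hi ⊢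
      intro h0
      rw [h0, mul_zero, map_zero] at hi
      exact hi rfl
  exact Nat.find_min hQ hlt ⟨_, hP, fun h => hl (congrFun h l), rfl⟩

theorem s_J3 : S_J3 := by
  intro K _ _ ξ D hcom hcst n A B m hB hind hw
  by_contra hA
  -- first step
  obtain ⟨A₁, hA₁, hD₁, l₁, hl₁⟩ := min_supp
    (fun A : Fin n → K => ∀ w : List (Fin 2), ∑ l, A l * wd D w (B l) = 0) D
    (by
      intro A hA l₀ _ w
      simp only [mul_assoc]
      rw [← Finset.mul_sum, hA w, mul_zero])
    (by
      intro A hA j w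
      have h1 := hA w
      have h2 := hA (j :: w)
      have h3 : D j (∑ l, A l * wd D w (B l)) = 0 := by rw [h1, map_zero]
      rw [map_sum] at h3
      simp only [Derivation.leibniz, smul_eq_mul] at h3
      rw [Finset.sum_add_distrib] at h3
      have h4 : ∑ l, A l * D j (wd D w (B l)) = 0 := h2
      rw [h4, zero_add] at h3
      rw [← h3]
      exact Finset.sum_congr rfl fun l _ => mul_comm _ _)
    ⟨A, hw, hA⟩
  -- second step
  obtain ⟨A₂, ⟨hD₂, hA₂⟩, hξ, l₂, hl₂⟩ := min_supp
    (fun A : Fin n → K => (∀ i l, D i (A l) = 0) ∧ ∑ l, A l * B l = 0) (fun _ : Unit => ξ)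
    (by
      intro A hA l₀ h0
      refine ⟨fun i l => ?_, ?_⟩
      · have h1 : D i ((A l₀)⁻¹) = 0 := by
          rw [Derivation.leibniz_inv, hA.1, smul_zero]
        rw [Derivation.leibniz, hA.1, h1, smul_zero, smul_zero, add_zero]
      · simp only [mul_assoc]
        rw [← Finset.mul_sum, hA.2, mul_zero])
    (by
      intro A hA _
      refine ⟨fun i l => ?_, ?_⟩
      · have h1 := congrArg (fun d : Derivation ℂ K K => d (A l)) (hcom i)
        simp only [Derivation.commutator_apply, Derivation.coe_zero, Pi.zero_apply] at h1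
        rw [hA.1, map_zero, zero_sub, neg_eq_zero] at h1
        exact h1
      · have h3 : ξ (∑ l, A l * B l) = 0 := by rw [hA.2, map_zero]
        rw [map_sum] at h3
        simp only [Derivation.leibniz, smul_eq_mul, hB] at h3
        rw [Finset.sum_add_distrib] at h3
        have h4 : ∑ l, A l * ((m : ℂ) • B l) = 0 := by
          simp only [mul_smul_comm]
          rw [← Finset.smul_sum, hA.2, smul_zero]
        rw [h4, zero_add] at h3
        rw [← h3]
        exact Finset.sum_congr rfl fun l _ => mul_comm _ _)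
    ⟨A₁, ⟨hD₁, hA₁ []⟩, fun h => by
      have := congrFun h l₁
      rw [hl₁] at this
      exact one_ne_zero this⟩
  have hc : ∀ l, Cst (A₂ l) := fun l => hcst _ (hξ () l) (hD₂ 0 l) (hD₂ 1 l)
  choose c hc using hc
  have h5 : ∑ l, c l • B l = 0 := by
    rw [← hA₂]
    refine Finset.sum_congr rfl fun l _ => ?_
    rw [hc l, Algebra.smul_def]
  have h6 := (Fintype.linearIndependent_iff.1 hind) c h5 l₂
  have h7 := hc l₂
  rw [h6, map_zero, hl₂] at h7
  exact one_ne_zero h7

end Pool.Agent.Helper96.D4
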